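import Mathlib
import Pool.Agent.R653.AR.Charge
import Pool.Agent.R653.AR.Lines

/-!
# Convex lower bound for the optimal average effective resistance

For every real `α ≥ 2`, `a(α) ≥ 2 f(α)`.
-/

namespace Pool.Agent.Results.MP_cf7718_co.ConvexLowerBound

open R653.AR Filter Topology

/-- A finite multigraph without loops on the vertex set `Fin n`: it has `m` edges, the edge `e`
joining the two distinct vertices `(ends e).1` and `(ends e).2`. -/
structure Multigraph (n : ℕ) where
  m : ℕ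
  ends : Fin m → Fin n × Fin n
  loopless : ∀ e, (ends e).1 ≠ (ends e).2

/-- The net current leaving the vertex `z` under the potential `φ`, every edge being a unit
resistor. -/
def outflow {n : ℕ} (G : Multigraph n) (φ : Fin n → ℝ) (z : Fin n) : ℝ :=
  ∑ e : Fin G.m, ((if (G.ends e).1 = z then φ z - φ (G.ends e).2 else 0)
    + (if (G.ends e).2 = z then φ z - φ (G.ends e).1 else 0))

/-- Effective resistance: the potential difference `φ x - φ y` for a potential `φ` driving a unit
current from `x` to `y`; it is `∞` if there is none (`x`, `y` in different components). -/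
noncomputable def effRes {n : ℕ} (G : Multigraph n) (x y : Fin n) : ENNReal :=
  ⨅ (φ : Fin n → ℝ) (_ : ∀ z, outflow G φ z = (if z = x then 1 else 0) - (if z = y then 1 else 0)),
    ENNReal.ofReal (φ x - φ y)

/-- `A'(G)`: the average of the effective resistances over all `n²` ordered pairs. -/
noncomputable def avgRes {n : ℕ} (G : Multigraph n) : ENNReal :=
  (∑ x, ∑ y, effRes G x y) / (n : ENNReal) ^ 2

/-- `a_n(α)`: the minimum of `A'(G)` over the multigraphs with `n` vertices and at most `α n / 2`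
edges. -/
noncomputable def aN (n : ℕ) (α : ℝ) : ENNReal :=
  ⨅ (G : Multigraph n) (_ : (G.m : ℝ) ≤ α * n / 2), avgRes G

/-- The convex functions competing in the definition of the comparison function. -/
def IsCompetitor (g : ℝ → ℝ) : Prop :=
  ConvexOn ℝ (Set.Ici 2) g ∧ g 2 ≤ 1 ∧ ∀ x, 2 < x → g x ≤ (x - 1) / (x * (x - 2))

/-- The comparison function: the pointwise supremum of the competitors. -/
noncomputable def f (x : ℝ) : ℝ := sSup {t | ∃ g, IsCompetitor g ∧ g x = t}

/-- The darts of a multigraph. -/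
def darts {n : ℕ} (G : Multigraph n) : Darts (Fin n) (Fin G.m × Bool) where
  src d := if d.2 then (G.ends d.1).1 else (G.ends d.1).2
  rev d := (d.1, !d.2)
  rev_rev d := by simp
  rev_ne d h := by
    have := congrArg Prod.snd h
    simp at this

theorem outflow_eq {n : ℕ} (G : Multigraph n) (φ : Fin n → ℝ) (z : Fin n) :
    (darts G).L φ z = outflow G φ z := by
  unfold Darts.L outflow Darts.tgt darts
  rw [Fintype.sum_prod_type]
  apply Finset.sum_congr rfl
  intro e _
  rw [Fintype.sum_bool]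
  simp

theorem avgRes_ge {n : ℕ} (hn : 0 < n) (G : Multigraph n) {α K s ε : ℝ} (hε : 0 < ε)
    (hs : 0 ≤ s) (hG : Good K s) (hm : (G.m : ℝ) ≤ α * n / 2) :
    ENNReal.ofReal (2 * (K - s * α) - 2 * ε * (K ^ 2 / 4 + 0.3) - 2 / (n * ε)) ≤ avgRes G := by
  choose g hg using fun x => (darts G).exists_green hε x
  have h1 : ∀ x y, ENNReal.ofReal (g x x - g x y - g y x + g y y) ≤ effRes G x y := by
    intro x y
    apply le_iInf₂
    intro φ hφ
    apply ENNReal.ofReal_le_ofReal
    exact ((darts G).res_ge hε g hg x y φ (fun z => by rw [outflow_eq]; exact hφ z)).1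
  have h2 : ENNReal.ofReal (∑ x, ∑ y, (g x x - g x y - g y x + g y y))
      ≤ ∑ x, ∑ y, effRes G x y := by
    rw [ENNReal.ofReal_sum_of_nonneg (fun x _ => Finset.sum_nonneg
      (fun y _ => (darts G).h_nonneg hε g hg x y))]
    apply Finset.sum_le_sum
    intro x _
    rw [ENNReal.ofReal_sum_of_nonneg (fun y _ => (darts G).h_nonneg hε g hg x y)]
    apply Finset.sum_le_sum
    intro y _
    exact h1 x y
  have hn' : (0 : ℝ) < n := by exact_mod_cast hn
  have h3 := (darts G).double_sum hε hG g hg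
  simp only [Fintype.card_fin, Fintype.card_prod, Fintype.card_bool] at h3
  push_cast at h3
  have h4 : 2 * (K - s * α) - 2 * ε * (K ^ 2 / 4 + 0.3) - 2 / (n * ε)
      ≤ (∑ x, ∑ y, (g x x - g x y - g y x + g y y)) / (n : ℝ) ^ 2 := by
    rw [le_div_iff₀ (by positivity)]
    refine le_trans ?_ h3
    have e1 : (2 / (n * ε)) * (n : ℝ) ^ 2 = 2 * n / ε := by
      field_simp
    have e2 : s * (G.m * 2) ≤ s * (α * n) := mul_le_mul_of_nonneg_left (by linarith) hs
    have e3 : 2 * (n : ℝ) * (s * (G.m * 2)) ≤ 2 * (n : ℝ) * (s * (α * n)) :=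
      mul_le_mul_of_nonneg_left e2 (by positivity)
    rw [sub_mul, e1]
    nlinarith
  have h5 : avgRes G ≥ ENNReal.ofReal
      ((∑ x, ∑ y, (g x x - g x y - g y x + g y y)) / (n : ℝ) ^ 2) := by
    rw [ENNReal.ofReal_div_of_pos (by positivity)]
    unfold avgRes
    have e1 : ENNReal.ofReal ((n : ℝ) ^ 2) = (n : ENNReal) ^ 2 := by
      rw [ENNReal.ofReal_pow (Nat.cast_nonneg n), ENNReal.ofReal_natCast]
    rw [e1]
    exact ENNReal.div_le_div_right h2 _
  exact le_trans (ENNReal.ofReal_le_ofReal h4) h5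

theorem liminf_ge {α K s : ℝ} (hs : 0 ≤ s) (hG : Good K s) :
    ENNReal.ofReal (2 * (K - s * α)) ≤ liminf (fun n : ℕ => aN n α) atTop := by
  have hsqrt : Tendsto (fun n : ℕ => Real.sqrt (n : ℝ)) atTop atTop :=
    Real.tendsto_sqrt_atTop.comp tendsto_natCast_atTop_atTop
  have h1 : Tendsto (fun n : ℕ => 2 * (K - s * α) - (2 * (K ^ 2 / 4 + 0.3) + 2) / Real.sqrt n)
      atTop (𝓝 (2 * (K - s * α))) := by
    have := (tendsto_const_nhds (x := 2 * (K - s * α)) (f := (atTop : Filter ℕ))).sub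
      (Tendsto.div_atTop (tendsto_const_nhds (x := 2 * (K ^ 2 / 4 + 0.3) + 2)) hsqrt)
    rwa [sub_zero] at this
  have h2 := ENNReal.tendsto_ofReal h1
  rw [← h2.liminf_eq]
  refine liminf_le_liminf ?_
  filter_upwards [eventually_gt_atTop 0] with n hn
  apply le_iInf₂
  intro G hm
  have hn' : (0 : ℝ) < n := by exact_mod_cast hn
  have hq : 0 < Real.sqrt n := Real.sqrt_pos.mpr hn'
  have h3 := avgRes_ge hn G (α := α) (ε := 1 / Real.sqrt n) (by positivity) hs hG hm
  have e : 2 * (K - s * α) - (2 * (K ^ 2 / 4 + 0.3) + 2) / Real.sqrt n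
      = 2 * (K - s * α) - 2 * (1 / Real.sqrt n) * (K ^ 2 / 4 + 0.3)
        - 2 / (n * (1 / Real.sqrt n)) := by
    have e1 : (n : ℝ) * (1 / Real.sqrt n) = Real.sqrt n := by
      rw [mul_one_div, div_eq_iff hq.ne', Real.mul_self_sqrt hn'.le]
    rw [e1]
    field_simp
    ring
  rw [e]
  exact h3

theorem bdd (x : ℝ) (hx : 2 ≤ x) : BddAbove {t | ∃ g, IsCompetitor g ∧ g x = t} := by
  rcases eq_or_lt_of_le hx with h | h
  · refine ⟨1, ?_⟩
    rintro _ ⟨g, hg, rfl⟩
    rw [← h]; exact hg.2.1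
  · refine ⟨(x - 1) / (x * (x - 2)), ?_⟩
    rintro _ ⟨g, hg, rfl⟩
    exact hg.2.2 x h

theorem nonempty (x : ℝ) : {t | ∃ g, IsCompetitor g ∧ g x = t}.Nonempty :=
  ⟨0, fun _ => 0, zero_minorant, rfl⟩

theorem le_f {g : ℝ → ℝ} (hg : IsCompetitor g) {x : ℝ} (hx : 2 ≤ x) : g x ≤ f x :=
  le_csSup (bdd x hx) ⟨g, hg, rfl⟩

theorem f_le {x a : ℝ} (h : ∀ g, IsCompetitor g → g x ≤ a) : f x ≤ a := by
  apply csSup_le (nonempty x)
  rintro _ ⟨g, hg, rfl⟩
  exact h g hg

theorem isCompetitor_f : IsCompetitor f := by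
  refine ⟨⟨convex_Ici 2, ?_⟩, f_le (fun g hg => hg.2.1), fun x hx => f_le (fun g hg => hg.2.2 x hx)⟩
  intro x hx y hy a b ha hb hab
  apply f_le
  intro g hg
  refine le_trans (hg.1.2 hx hy ha hb hab) ?_
  simp only [smul_eq_mul]
  exact add_le_add (mul_le_mul_of_nonneg_left (le_f hg hx) ha)
    (mul_le_mul_of_nonneg_left (le_f hg hy) hb)

/-- The star, a connected graph, which shows that `a_n(α)` is finite. -/
def star (k : ℕ) : Multigraph (k + 1) where
  m := k
  ends e := (0, e.succ)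
  loopless e := (Fin.succ_ne_zero e).symm

theorem star_potential (k : ℕ) (x y : Fin (k + 1)) :
    ∀ z, outflow (star k)
      (fun z => if z = 0 then 0 else (if z = x then 1 else 0) - (if z = y then 1 else 0)) z
      = (if z = x then 1 else 0) - (if z = y then 1 else 0) := by
  intro z
  unfold outflow star
  simp only
  refine Fin.cases ?_ ?_ z
  · -- the centre
    have h : ∀ x : Fin (k + 1), ∑ e : Fin k, (if e.succ = x then (1 : ℝ) else 0)
        = 1 - (if (0 : Fin (k + 1)) = x then 1 else 0) := by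
      intro x
      have := Fin.sum_univ_succ (fun i : Fin (k + 1) => if i = x then (1 : ℝ) else 0)
      rw [Finset.sum_ite_eq' ] at this
      simp only [Finset.mem_univ, if_true] at this
      linarith
    simp only [Fin.succ_ne_zero, if_true, if_false, add_zero, zero_sub]
    rw [Finset.sum_neg_distrib, Finset.sum_sub_distrib, h, h]
    ring
  · intro j
    rw [Finset.sum_eq_single j]
    · simp [(Fin.succ_ne_zero j).symm]
    · intro e _ he
      rw [if_neg (Fin.succ_ne_zero j).symm, if_neg, add_zero]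
      intro h
      exact he (Fin.succ_injective _ h)
    · intro h; exact absurd (Finset.mem_univ _) h

theorem aN_ne_top {n : ℕ} (hn : 0 < n) {α : ℝ} (hα : 2 ≤ α) : aN n α ≠ ⊤ := by
  obtain ⟨k, rfl⟩ : ∃ k, n = k + 1 := ⟨n - 1, by omega⟩
  have h1 : aN (k + 1) α ≤ avgRes (star k) := by
    apply iInf₂_le (star k)
    show ((k : ℕ) : ℝ) ≤ α * ((k + 1 : ℕ) : ℝ) / 2
    push_cast
    have : (0 : ℝ) ≤ k := Nat.cast_nonneg k
    nlinarith
  have h2 : ∀ x y, effRes (star k) x y ≠ ⊤ := by
    intro x y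
    apply ne_top_of_le_ne_top _ (iInf₂_le _ (star_potential k x y))
    exact ENNReal.ofReal_ne_top
  have h3 : avgRes (star k) ≠ ⊤ := by
    unfold avgRes
    apply ENNReal.div_ne_top
    · apply (ENNReal.sum_lt_top.mpr _).ne
      intro x _
      apply ENNReal.sum_lt_top.mpr
      intro y _
      exact lt_top_iff_ne_top.mpr (h2 x y)
    · apply pow_ne_zero
      exact Nat.cast_ne_zero.mpr hn.ne'
  exact ne_top_of_le_ne_top h3 h1

/-- **Answer to Q1 (affirmative).** `f` is the largest convex function on `[2, ∞)` with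
`f 2 ≤ 1` and `f x ≤ (x-1)/(x(x-2))` for `x > 2`; and for every real `α ≥ 2` the limit `a(α)` of
`a_n(α)` is at least `2 f(α)` (more precisely: already the lower limit is). -/
theorem result :
    (IsCompetitor f ∧ ∀ g, IsCompetitor g → ∀ x, 2 ≤ x → g x ≤ f x) ∧
    ∀ α : ℝ, 2 ≤ α →
      0 ≤ f α ∧ (∀ n, 0 < n → aN n α ≠ ⊤) ∧
      ENNReal.ofReal (2 * f α) ≤ liminf (fun n : ℕ => aN n α) atTop ∧
      ∀ a : ℝ, Tendsto (fun n : ℕ => (aN n α).toReal) atTop (𝓝 a) → 2 * f α ≤ a := by
  refine ⟨⟨isCompetitor_f, fun g hg x hx => le_f hg hx⟩, ?_⟩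
  intro α hα
  have h0 : 0 ≤ f α := le_f (g := fun _ => 0) zero_minorant hα
  have hlim : ENNReal.ofReal (2 * f α) ≤ liminf (fun n : ℕ => aN n α) atTop := by
    obtain ⟨K, s, hs, hG, hle⟩ := exists_line (g := f) isCompetitor_f hα
    refine le_trans (ENNReal.ofReal_le_ofReal ?_) (liminf_ge hs hG)
    linarith
  refine ⟨h0, fun n hn => aN_ne_top hn hα, hlim, ?_⟩
  intro a ha
  have ha0 : 0 ≤ a := ge_of_tendsto' ha (fun n => ENNReal.toReal_nonneg)
  have h1 : Tendsto (fun n : ℕ => aN n α) atTop (𝓝 (ENNReal.ofReal a)) := by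
    refine (ENNReal.tendsto_ofReal ha).congr' ?_
    filter_upwards [eventually_gt_atTop 0] with n hn
    exact ENNReal.ofReal_toReal (aN_ne_top hn hα)
  rw [h1.liminf_eq] at hlim
  exact (ENNReal.ofReal_le_ofReal_iff ha0).mp hlim

end Pool.Agent.Results.MP_cf7718_co.ConvexLowerBound
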